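import Pool.Agent.Run7.h318.BK.Bd

/-!
# The number of the Selmer homomorphisms and the local count
-/

set_option autoImplicit false

namespace Run7.h318.BK

open WeierstrassCurve Pool.Agent.W262.RK

open scoped Classical

open Pool.Agent.W262.SH (QB Pt act LocTriv LocSol SelS IsSel E)
open Pool.Agent.Y700 (VR eL eL_act)
open Run7.h318.SH (act_tors isR_E)

/-- the number of the Selmer homomorphisms -/
noncomputable def SN (A B : ℤ) : ℕ := {h | IsSel A B h}.ncard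

/-- the bound by the local count -/
theorem sn_le (m : ℕ) (L : ℕ → Bool → Bool → Bool → Bool → Prop) (A B : ℤ) (hA : A ≠ 0)
    (hB : B ≠ 0) (hAB : A ≠ B) (hodd : Odd m) (hm : Squarefree m)
    (hL : ∀ p, p.Prime → p ∣ m → XC (L p))
    (hloc : ∀ (p : ℕ) [Fact p.Prime], p ∣ m → ∀ e1 e2 : ℤ, Squarefree e1 → Squarefree e2 →
      LocSol p A B e1 e2 → L p (dv p e1) (dv p e2) (sgn p e1) (sgn p e2)) :
    {h | IsSel A B h}.Finite ∧ SN A B ≤
      4 ^ (((2 * A * B * (A - B)).natAbs.primeFactors.filter (fun q => ¬ q ∣ m)).card + 2) *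
        NL m L := by
  obtain ⟨h1, h2⟩ := Run7.h318.SH.desc5 m L A B hA hB hAB hodd hm hL hloc
  obtain ⟨h3, h4⟩ := Run7.h318.SH.sh1 A B hA hB hAB h1
  exact ⟨h3, h4.trans h2⟩

/-- finiteness -/
theorem fin_sel {A B : ℤ} (hA : A ≠ 0) (hB : B ≠ 0) (hAB : A ≠ B) : {h | IsSel A B h}.Finite :=
  (sn_le 1 (fun _ _ _ _ _ => True) A B hA hB hAB odd_one squarefree_one
    (fun _ hp hpd => absurd (Nat.dvd_one.1 hpd) hp.one_lt.ne')
    (fun _ _ _ _ _ _ _ _ => trivial)).1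

lemma isSel_zero (A B : ℤ) : IsSel A B 0 := by
  refine ⟨IsLocallyConstant.const _, fun σ => ?_, fun σ τ => ?_, fun p _ _ ι => ⟨0, fun τ σ _ => ?_⟩⟩
  · simp
  · simp
  · simp

lemma one_le_SN {A B : ℤ} (hA : A ≠ 0) (hB : B ≠ 0) (hAB : A ≠ B) : 1 ≤ SN A B := by
  have h := (Set.ncard_pos (fin_sel hA hB hAB)).2 ⟨0, isSel_zero A B⟩
  exact h

/-- isomorphic curves -/
lemma sn_mono {A B A' B' : ℤ} {u r s t : ℚ} (h : VR (E A B) (E A' B') u r s t)
    (hD : (E A' B').Δ ≠ 0) (hfin : {h | IsSel A B h}.Finite) : SN A' B' ≤ SN A B := by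
  refine Set.ncard_le_ncard_of_injOn (fun f σ => eL h hD QB (f σ)) ?_ ?_ hfin
  · rintro f ⟨h1, h2, h3, h4⟩
    refine ⟨h1.comp (eL h hD QB), fun σ => ?_, fun σ τ => ?_, fun p _ hp ι => ?_⟩
    · show eL h hD QB (f σ) + eL h hD QB (f σ) = 0
      rw [← map_add, h2, map_zero]
    · show eL h hD QB (f (σ * τ)) = eL h hD QB (f σ) + eL h hD QB (f τ)
      rw [← map_add, h3]
    · obtain ⟨P, hP⟩ := h4 p hp ι
      refine ⟨eL h hD _ P, fun τ σ hτ => ?_⟩
      show act _ ι (eL h hD QB (f σ)) = _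
      rw [← eL_act, hP τ σ hτ, map_sub, eL_act]
  · intro f _ g _ hfg
    funext σ
    exact (eL h hD QB).injective (congrFun hfg σ)

end Run7.h318.BK
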