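import Mathlib
import Pool.Agent.Run7.h69.RK
import Pool.Agent.Run7.h318.BK.Sn

/-!
# Moments of the number of the Selmer homomorphisms for the twists by the values of a polynomial: good data

As `Pool/Agent/Run7/h69/RK.lean` of helper69, with `2 ^ rank` replaced by the number of the Selmer
homomorphisms.
-/

set_option autoImplicit false
set_option linter.unusedSectionVars false

namespace Run7.h318.BK

open Finset Polynomial
open Pool.Agent.W262.RK hiding lk ff s1 s2
open Run7.h69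

namespace RK

open Run7.h69.RK hiding rank moments

variable {f : ℤ[X]} {z : ℕ}

/-- the rank is bounded by the local count -/
lemma rank {a b : ℤ} (hz : 2 ≤ z) (ha : a ≠ 0) (hb : b ≠ 0) (hab : a ≠ b) (haz : a.natAbs ≤ z)
    (hbz : b.natAbs ≤ z) (habz : (a - b).natAbs ≤ z) {t : ℤ} {y N : ℕ} (hy : 1 ≤ y)
    (h0 : f.eval t ≠ 0) (hN : (f.eval t).natAbs < (y + 1) ^ N) :
    Run7.h318.BK.SN (a * f.eval t) (b * f.eval t) ≤
      4 ^ (z + 2) * 4 ^ N * 4 ^ ((t2 f z y t).primeFactors.card) *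
        NL (t1 f z y t) (LE (kp a b) (ng f t (t1 f z y t))) := by
  set F := f.eval t with hF
  set s := t1 f z y t with hs
  have hno : ∀ p : ℕ, z < p → ∀ c : ℤ, c ≠ 0 → c.natAbs ≤ z → ¬ (p : ℤ) ∣ c := by
    intro p hzp c hc hcz hd
    have := Nat.le_of_dvd (Int.natAbs_pos.2 hc) (Int.natCast_dvd.1 hd)
    omega
  have hkp : ∀ p : ℕ, z < p → ∀ k, ¬ (p : ℤ) ∣ kp a b k := by
    intro p hzp
    exact fin3 _ (hno p hzp a ha haz) (hno p hzp b hb hbz)
      (hno p hzp (a - b) (sub_ne_zero.2 hab) habz)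
  have hsd : s ∣ PP z y := NX.t1_dvd z y t
  have hs0 : s ≠ 0 := Nat.one_le_iff_ne_zero.1 (NX.dpos hsd)
  have hodd : ∀ p : ℕ, p.Prime → p ∣ s → p ≠ 2 := by
    intro p hp h
    have h1 := (t1_pf hp h).1
    omega
  have hd := (Run7.h318.BK.sn_le s (LE (kp a b) (ng f t s)) (a * F) (b * F)
    (mul_ne_zero ha h0) (mul_ne_zero hb h0) (fun h => hab (mul_right_cancel₀ h0 h))
    (by
      rw [← Nat.not_even_iff_odd, even_iff_two_dvd]
      intro h
      exact hodd 2 Nat.prime_two h rfl)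
    ((PP_squarefree z y).squarefree_of_dvd hsd)
    (fun p hp hpd => Pool.Agent.W342.RK2.xcl _ _ _ p hp (hodd p hp hpd)
      (hkp p (t1_pf hp hpd).1))
    (fun p hpf hpd e1 e2 he1 he2 hsol => by
      have hpp : p.Prime := Fact.out
      obtain ⟨hzp, h1, h2⟩ := t1_pf hpp hpd
      refine Run7.h318.SH.locl2 3 (kp a b) _ p _ _ (hodd p hpp hpd) (hkp p hzp)
        (locH hpp (hno p hzp a ha haz) (hno p hzp b hb hbz)
          (hno p hzp (a - b) (sub_ne_zero.2 hab) habz) h1 h2 ?_)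
        e1 e2 he1 he2 hsol
      rw [decide_eq_true_eq]
      unfold ng
      rw [mem_filter, Nat.mem_primeFactors]
      exact ⟨fun h => h.2, fun h => ⟨⟨hpp, hpd, hs0⟩, h⟩⟩)).2
  refine hd.trans (Nat.mul_le_mul_right _ ?_)
  have hc := bad (f := f) (t := t) hz ha hb hab haz hbz habz hy h0 hN
  rw [← hF, ← hs] at hc
  calc _ ≤ 4 ^ ((z + 2) + N + (t2 f z y t).primeFactors.card) :=
        Nat.pow_le_pow_right (by norm_num) (by omega)
    _ = _ := by rw [pow_add, pow_add]

/-- the moments for good data -/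
theorem moments {a b : ℤ} {g m : ℕ} (M : ℕ) (ha : a ≠ 0) (hb : b ≠ 0) (hab : a ≠ b)
    (haz : a.natAbs ≤ z) (hbz : b.natAbs ≤ z) (habz : (a - b).natAbs ≤ z) (hz : Gd f z)
    (hg : 1 ≤ g) (hM : Mer f g) (hU : Utw f z)
    (hκk : ∀ i : XP.Ik m, (XP.κk (kp a b) i).natAbs ≤ z) (hk : 2 * f.natDegree ≤ 4 ^ m)
    (hk2 : 2 * g ≤ 4 ^ m) :
    ∃ (X0 : ℕ) (B : ℝ), ∀ (x : ℤ) (X : ℕ), x.natAbs ≤ X ^ M → X0 ≤ X →
      ∑ t ∈ NX.II f x X, (Run7.h318.BK.SN (a * f.eval t) (b * f.eval t) : ℝ) ^ m ≤ B * X := by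
  classical
  have hz2 : 2 ≤ z := by have := hz.big; omega
  have hκ0 : ∀ k, kp a b k ≠ 0 := fin3 _ ha hb (sub_ne_zero.2 hab)
  have hκz : ∀ k, (kp a b k).natAbs ≤ z := fin3 _ haz hbz habz
  obtain ⟨C', hC'⟩ := avg_bound
    (Pool.Agent.W655.RK.blw_of (_root_.W37.RK.bl_of Pool.Agent.W505.RK.ls)) hz hg hM hU hκ0 hκz
    hκk hk hk2
  obtain ⟨C, K, y0, hC0, hK1, hcn⟩ := CN.count hz hM
  obtain ⟨c, L, hcL⟩ := growth f
  -- the size of the values
  set L1 : ℕ := (M + 3) * L + 1 with hL1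
  set y1 : ℕ := y0 + c + 3 with hy1
  have hval : ∀ (x : ℤ) (X : ℕ), x.natAbs ≤ X ^ M → y1 ≤ X → ∀ t ∈ Ioc x (x + X),
      (f.eval t).natAbs ≤ X ^ L1 := by
    intro x X hx hX t ht
    rw [mem_Ioc] at ht
    have hX2 : 2 ≤ X := by omega
    have h1 : t.natAbs + 1 ≤ x.natAbs + X + 1 := by omega
    have h2 : x.natAbs + X + 1 ≤ X ^ (M + 3) := by
      have h3 : X ^ (M + 3) = X ^ M * (X ^ 3) := pow_add _ _ _
      have h4 : 1 ≤ X ^ M := Nat.one_le_pow _ _ (by omega)
      have h5 : X + 1 + 1 ≤ X ^ 3 := by nlinarith [Nat.mul_le_mul hX2 hX2, sq_nonneg (X - 2)]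
      calc x.natAbs + X + 1 ≤ X ^ M * 1 + 1 * (X + 1) := by omega
        _ ≤ X ^ M * 1 + X ^ M * (X + 1) := Nat.add_le_add_left (Nat.mul_le_mul_right _ h4) _
        _ = X ^ M * (X + 1 + 1) := by ring
        _ ≤ X ^ M * X ^ 3 := Nat.mul_le_mul_left _ h5
        _ = _ := h3.symm
    calc (f.eval t).natAbs ≤ c * (t.natAbs + 1) ^ L := hcL t
      _ ≤ X * (X ^ (M + 3)) ^ L :=
          Nat.mul_le_mul (by omega) (Nat.pow_le_pow_left (h1.trans h2) _)
      _ = X ^ L1 := by rw [hL1, ← pow_mul, pow_succ, mul_comm]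
  obtain ⟨X0, B, hB⟩ := NX.nt (G := NBk m (kp a b))
    (R := fun t => (Run7.h318.BK.SN (a * f.eval t) (b * f.eval t) : ℝ) ^ m)
    (Q := fun x X => x.natAbs ≤ X ^ M ∧ y1 ≤ X) (A := 4 ^ m) (C := C * (4 ^ (z + 2)) ^ m)
    (D := (4 ^ L1) ^ m) (C' := C') (g := g) (K := K) (y0 := y1)
    hz (NBk_nonneg m _) (fun t => by positivity) (by positivity) (by positivity)
    (one_le_pow₀ (one_le_pow₀ (by norm_num)))
    (fun y s e hse => subk m hz2 hκ0 hκz hse) hC' (by
      intro x X y Y k hQ hy0 hzy hyK hXk s v u hs hv hu hsvu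
      obtain ⟨hx, hX⟩ := hQ
      have hy00 : y0 ≤ y := by omega
      set S := (NX.II f x X).filter (fun t : ℤ => t1 f z y t = s ∧ t2 f z y t = v ∧
        (u : ℤ) ∣ f.eval t) with hS
      set G : Finset ℕ → ℝ := fun E => (NL s (LE (kp a b) E) : ℝ) ^ m with hG
      have hG0 : ∀ E, 0 ≤ G E := fun E => by simp only [hG]; positivity
      have h1 : ∀ t ∈ S, (Run7.h318.BK.SN (a * f.eval t) (b * f.eval t) : ℝ) ^ m ≤
          (4 ^ (z + 2)) ^ m * ((4 ^ L1) ^ m) ^ k * (4 ^ m) ^ v.primeFactors.card *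
            G (ng f t s) := by
        intro t ht
        rw [hS, mem_filter] at ht
        obtain ⟨ht1, hts, htv, _⟩ := ht
        unfold NX.II at ht1
        rw [mem_filter] at ht1
        have hN : (f.eval t).natAbs < (y + 1) ^ (k * L1) := by
          calc (f.eval t).natAbs ≤ X ^ L1 := hval x X hx hX t ht1.1
            _ < ((y + 1) ^ k) ^ L1 := Nat.pow_lt_pow_left hXk (by omega)
            _ = _ := by rw [← pow_mul]
        have hr := rank hz2 ha hb hab haz hbz habz (t := t) (y := y) (N := k * L1) (by omega)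
          ht1.2 hN
        rw [hts, htv] at hr
        have hr' : (Run7.h318.BK.SN (a * f.eval t) (b * f.eval t) : ℝ) ≤
            4 ^ (z + 2) * 4 ^ (k * L1) * 4 ^ (v.primeFactors.card) *
              (NL s (LE (kp a b) (ng f t s)) : ℝ) := by exact_mod_cast hr
        refine (pow_le_pow_left₀ (by positivity) hr' m).trans (le_of_eq ?_)
        simp only [hG]
        rw [mul_pow, mul_pow, mul_pow]
        congr 2
        · congr 1
          rw [← pow_mul, ← pow_mul, ← pow_mul]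
          congr 1
          ring
        · rw [← pow_mul, ← pow_mul, mul_comm]
      have hneg : ∀ t ∈ S, ng f t s ∈ s.primeFactors.powerset := by
        intro t _
        rw [mem_powerset]
        exact filter_subset _ _
      have h2 : ∑ t ∈ S, G (ng f t s) =
          ∑ E ∈ s.primeFactors.powerset,
            ((S.filter (fun t : ℤ => ng f t s = E)).card : ℝ) * G E := by
        rw [← sum_fiberwise_of_maps_to hneg]
        refine sum_congr rfl fun E _ => ?_
        rw [← nsmul_eq_mul, ← sum_const]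
        refine sum_congr rfl fun t ht => ?_
        rw [(mem_filter.1 ht).2]
      set Q : ℝ := C * X * (1 / 2) ^ s.primeFactors.card * gm (br f) s * (gm (br f) v / v) *
        gm (ru f) u / (Real.log y) ^ g with hQ
      have h3 : ∀ E ∈ s.primeFactors.powerset,
          ((S.filter (fun t : ℤ => ng f t s = E)).card : ℝ) * G E ≤ Q * G E := by
        intro E _
        refine mul_le_mul_of_nonneg_right ?_ (hG0 E)
        refine le_trans ?_ (hcn x X y Y hy00 hzy hyK s v u hs hv hu hsvu E)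
        have h4 : S.filter (fun t : ℤ => ng f t s = E) ⊆
            (Ioc x (x + X)).filter (fun t : ℤ => t1 f z y t = s ∧ t2 f z y t = v ∧
              (u : ℤ) ∣ f.eval t ∧ ng f t s = E) := by
          intro t ht
          rw [mem_filter, hS, mem_filter] at ht
          unfold NX.II at ht
          rw [mem_filter] at ht
          rw [mem_filter]
          exact ⟨ht.1.1.1, ht.1.2.1, ht.1.2.2.1, ht.1.2.2.2, ht.2⟩
        exact_mod_cast card_le_card h4
      calc ∑ t ∈ S, (Run7.h318.BK.SN (a * f.eval t) (b * f.eval t) : ℝ) ^ m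
          ≤ ∑ t ∈ S, (4 ^ (z + 2)) ^ m * ((4 ^ L1) ^ m) ^ k * (4 ^ m) ^ v.primeFactors.card *
            G (ng f t s) := sum_le_sum h1
        _ = (4 ^ (z + 2)) ^ m * ((4 ^ L1) ^ m) ^ k * (4 ^ m) ^ v.primeFactors.card *
              ∑ E ∈ s.primeFactors.powerset,
                ((S.filter (fun t : ℤ => ng f t s = E)).card : ℝ) * G E := by
            rw [← mul_sum, h2]
        _ ≤ (4 ^ (z + 2)) ^ m * ((4 ^ L1) ^ m) ^ k * (4 ^ m) ^ v.primeFactors.card *
              ∑ E ∈ s.primeFactors.powerset, Q * G E :=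
            mul_le_mul_of_nonneg_left (sum_le_sum h3) (by positivity)
        _ = _ := by
            have e1 : NBk m (kp a b) s = (1 / 2) ^ s.primeFactors.card *
                ∑ E ∈ s.primeFactors.powerset, G E := rfl
            have e2 : NX.bV f (4 ^ m) v = (4 ^ m) ^ v.primeFactors.card *
                (gm (br f) v / v) := rfl
            rw [← mul_sum, e1, e2, hQ]
            ring)
  refine ⟨X0 + y1, B, fun x X hx hX => ?_⟩
  exact hB x X ⟨hx, by omega⟩ (by omega)

end RK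

end Run7.h318.BK
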