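import Mathlib
import Pool.Agent.Run7.h318.BK.T1
import Pool.Agent.Run7.h69.UT2

/-!
# Moments of the number of the Selmer homomorphisms for the twists by the values of a polynomial

As `Pool/Agent/Run7/h69/TM.lean` of helper69, with `2 ^ rank` replaced by the number of the Selmer
homomorphisms.
-/

set_option autoImplicit false
set_option linter.unusedSectionVars false

namespace Run7.h318.BK

open Finset Polynomial
open Pool.Agent.W262.RK hiding lk ff s1 s2
open Run7.h69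

lemma delta_EAB {A B : ℤ} (hA : A ≠ 0) (hB : B ≠ 0) (hAB : A ≠ B) :
    (Pool.Agent.W262.SH.E A B).Δ ≠ 0 := by
  have e : (Pool.Agent.W262.SH.E A B).Δ = 16 * (((A * B * (A - B) : ℤ)) : ℚ) ^ 2 := by
    simp only [WeierstrassCurve.Δ, WeierstrassCurve.b₂, WeierstrassCurve.b₄,
      WeierstrassCurve.b₆, WeierstrassCurve.b₈, Pool.Agent.W262.SH.E]
    push_cast
    ring
  rw [e]
  exact mul_ne_zero (by norm_num) (pow_ne_zero 2 (by
    exact_mod_cast mul_ne_zero (mul_ne_zero hA hB) (sub_ne_zero.2 hAB)))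

/-- multiplication of the coefficients by a square -/
lemma vr_scale {A B m : ℤ} (hm : m ≠ 0) : Pool.Agent.Y700.VR (Pool.Agent.W262.SH.E A B)
    (Pool.Agent.W262.SH.E (A * m ^ 2) (B * m ^ 2)) (m : ℚ)⁻¹ 0 0 0 where
  u0 := inv_ne_zero (by exact_mod_cast hm)
  e1 := by simp [Pool.Agent.W262.SH.E]
  e2 := by
    have hmq : (m : ℚ) ≠ 0 := by exact_mod_cast hm
    simp only [Pool.Agent.W262.SH.E]
    push_cast
    field_simp
    ring
  e3 := by simp [Pool.Agent.W262.SH.E]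
  e4 := by
    have hmq : (m : ℚ) ≠ 0 := by exact_mod_cast hm
    simp only [Pool.Agent.W262.SH.E]
    push_cast
    field_simp
    ring
  e6 := by
    simp only [Pool.Agent.W262.SH.E]
    ring

lemma sn_scale {A B m : ℤ} (hm : m ≠ 0) (hA : A ≠ 0) (hB : B ≠ 0) (hAB : A ≠ B) :
    SN (A * m ^ 2) (B * m ^ 2) ≤ SN A B := by
  have hm2 : m ^ 2 ≠ 0 := pow_ne_zero 2 hm
  exact sn_mono (vr_scale hm) (delta_EAB (mul_ne_zero hA hm2) (mul_ne_zero hB hm2)
    (fun h => hAB (mul_right_cancel₀ hm2 h))) (fin_sel hA hB hAB)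

namespace TM

/-- the quantity to be averaged -/
noncomputable def rr (a b d : ℤ) : ℝ := (SN (a * d) (b * d) : ℝ)

lemma rr_nonneg (a b d : ℤ) : 0 ≤ rr a b d := Nat.cast_nonneg _

lemma one_le_rr {a b d : ℤ} (ha : a ≠ 0) (hb : b ≠ 0) (hab : a ≠ b) (hd : d ≠ 0) :
    1 ≤ rr a b d := by
  unfold rr
  exact_mod_cast one_le_SN (mul_ne_zero ha hd) (mul_ne_zero hb hd)
    (fun h => hab (mul_right_cancel₀ hd h))

lemma rr_sq {a b d m : ℤ} (ha : a ≠ 0) (hb : b ≠ 0) (hab : a ≠ b) (hd : d ≠ 0) (hm : m ≠ 0) :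
    rr a b (m ^ 2 * d) ≤ rr a b d := by
  unfold rr
  rw [show a * (m ^ 2 * d) = a * d * m ^ 2 by ring, show b * (m ^ 2 * d) = b * d * m ^ 2 by ring]
  exact_mod_cast sn_scale hm (mul_ne_zero ha hd) (mul_ne_zero hb hd)
    (fun h => hab (mul_right_cancel₀ hd h))

/-- squarefree polynomials of positive degree, long intervals -/
theorem sqf {a b : ℤ} (ha : a ≠ 0) (hb : b ≠ 0) (hab : a ≠ b) {h : ℤ[X]} (hsq : Squarefree h)
    (h0 : h ≠ 0) (hd : 0 < h.natDegree) (k M : ℕ) :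
    ∃ (X0 : ℕ) (B : ℝ), ∀ (x : ℤ) (X : ℕ), x.natAbs ≤ X ^ M → X0 ≤ X →
      ∑ t ∈ NX.II h x X, rr a b (h.eval t) ^ k ≤ B * X := by
  classical
  obtain ⟨hsep, g, z0, hg1, hg2, hM, hU⟩ := UT.sqf h hsq h0
  obtain ⟨z1, hz1⟩ := UT.good h h0 hsep
  set m : ℕ := k + 2 * h.natDegree with hm
  have hm4 : 2 * h.natDegree ≤ 4 ^ m := by
    calc 2 * h.natDegree ≤ m := by omega
      _ ≤ 4 ^ m := (Nat.lt_pow_self (by norm_num)).le
  set z : ℕ := z0 + z1 + a.natAbs + b.natAbs + (a - b).natAbs +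
    ∑ i : XP.Ik m, (XP.κk (Run7.h69.RK.kp a b) i).natAbs with hz
  obtain ⟨X0, B, hB⟩ := RK.moments (f := h) (z := z) (a := a) (b := b) (g := g) (m := m) M ha hb hab
    (by omega) (by omega) (by omega) (hz1 z (by omega)) (hg1 hd) hM (hU z (by omega))
    (fun i => by
      have h1 := single_le_sum (f := fun i : XP.Ik m => (XP.κk (Run7.h69.RK.kp a b) i).natAbs)
        (fun _ _ => Nat.zero_le _) (mem_univ i)
      omega) hm4 (by omega)
  refine ⟨X0, B, fun x X hx hX => le_trans (sum_le_sum fun t ht => ?_) (hB x X hx hX)⟩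
  unfold NX.II at ht
  rw [mem_filter] at ht
  exact pow_le_pow_right₀ (one_le_rr ha hb hab ht.2) (by omega)

/-- **the moments** -/
theorem main {a b : ℤ} (ha : a ≠ 0) (hb : b ≠ 0) (hab : a ≠ b) (f : ℤ[X]) (k M : ℕ) :
    ∃ C : ℝ, ∀ (x : ℤ) (X : ℕ), 1 ≤ X → x.natAbs ≤ X ^ M →
      ∑ t ∈ NX.II f x X, rr a b (f.eval t) ^ k ≤ C * X := by
  classical
  by_cases hf : f = 0
  · refine ⟨0, fun x X _ _ => ?_⟩
    have : NX.II f x X = ∅ := by
      unfold NX.II
      rw [filter_eq_empty_iff]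
      intro t _ h
      rw [hf, eval_zero] at h
      exact h rfl
    rw [this, sum_empty, zero_mul]
  obtain ⟨g, h, hfg, hsq, h0, hg0⟩ := UT.sq_mul f hf
  have hval : ∀ t : ℤ, f.eval t = (g.eval t) ^ 2 * h.eval t := by
    intro t
    rw [hfg, eval_mul, eval_pow]
  have hrr : ∀ t : ℤ, f.eval t ≠ 0 → h.eval t ≠ 0 ∧ rr a b (f.eval t) ≤ rr a b (h.eval t) := by
    intro t ht
    rw [hval] at ht
    have h1 : g.eval t ≠ 0 := by
      intro h2
      rw [h2] at ht
      simp at ht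
    refine ⟨right_ne_zero_of_mul ht, ?_⟩
    rw [hval]
    exact rr_sq ha hb hab (right_ne_zero_of_mul ht) h1
  have hsub : ∀ (x : ℤ) (X : ℕ), ∑ t ∈ NX.II f x X, rr a b (f.eval t) ^ k ≤
      ∑ t ∈ NX.II h x X, rr a b (h.eval t) ^ k := by
    intro x X
    have h1 : ∑ t ∈ NX.II f x X, rr a b (f.eval t) ^ k ≤
        ∑ t ∈ NX.II f x X, rr a b (h.eval t) ^ k := by
      refine sum_le_sum fun t ht => ?_
      unfold NX.II at ht
      rw [mem_filter] at ht
      exact pow_le_pow_left₀ (rr_nonneg _ _ _) (hrr t ht.2).2 k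
    refine h1.trans (sum_le_sum_of_subset_of_nonneg ?_ fun t _ _ =>
      pow_nonneg (rr_nonneg _ _ _) k)
    intro t ht
    unfold NX.II at ht ⊢
    rw [mem_filter] at ht ⊢
    exact ⟨ht.1, (hrr t ht.2).1⟩
  rcases Nat.eq_zero_or_pos h.natDegree with hd | hd
  · obtain ⟨c, hc⟩ := natDegree_eq_zero.1 hd
    refine ⟨rr a b c ^ k, fun x X _ _ => (hsub x X).trans ?_⟩
    have h1 : ∀ t ∈ NX.II h x X, rr a b (h.eval t) ^ k = rr a b c ^ k := by
      intro t _
      rw [← hc, eval_C]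
    rw [sum_congr rfl h1, sum_const, nsmul_eq_mul, mul_comm]
    have h2 : ((NX.II h x X).card : ℝ) ≤ X := by
      have h3 : (NX.II h x X).card ≤ X := by
        unfold NX.II
        refine (card_filter_le _ _).trans ?_
        rw [Int.card_Ioc]
        simp
      exact_mod_cast h3
    have h3 : (0 : ℝ) ≤ rr a b c ^ k := pow_nonneg (rr_nonneg _ _ _) k
    exact mul_le_mul_of_nonneg_left h2 h3
  · obtain ⟨X0, B, hB⟩ := sqf ha hb hab hsq h0 hd k M
    set N : ℤ := (X0 : ℤ) ^ M + X0 with hN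
    set S : ℝ := ∑ t ∈ Icc (-N) N, rr a b (h.eval t) ^ k with hS
    have hnn : ∀ t : ℤ, 0 ≤ rr a b (h.eval t) ^ k := fun t => pow_nonneg (rr_nonneg _ _ _) k
    have hS0 : 0 ≤ S := sum_nonneg fun t _ => hnn t
    refine ⟨|B| + S, fun x X hX hx => (hsub x X).trans ?_⟩
    have hXr : (1 : ℝ) ≤ X := by exact_mod_cast hX
    rcases Nat.lt_or_ge X X0 with hXX | hXX
    · have h1 : ∑ t ∈ NX.II h x X, rr a b (h.eval t) ^ k ≤ S := by
        refine sum_le_sum_of_subset_of_nonneg ?_ fun t _ _ => hnn t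
        intro t ht
        unfold NX.II at ht
        rw [mem_filter, mem_Ioc] at ht
        rw [mem_Icc]
        have h2 : (x.natAbs : ℤ) ≤ (X0 : ℤ) ^ M := by
          exact_mod_cast hx.trans (Nat.pow_le_pow_left hXX.le M)
        have h3 : (X : ℤ) ≤ X0 := by exact_mod_cast hXX.le
        omega
      have h4 : 0 ≤ |B| := abs_nonneg _
      nlinarith
    · have h1 := hB x X hx hXX
      have h2 := le_abs_self B
      nlinarith

end TM

end Run7.h318.BK
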