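import Mathlib
import Pool.Agent.Run7.h69.FZ
import Pool.Agent.Run7.h318.BK.F1

/-!
# Moments of the number of the Selmer homomorphisms in the families `y² = x (x - F₀(t)) (x - F₁(t))`

As `Pool/Agent/Run7/h69/FN.lean` and `FZ.lean` of helper69, with `2 ^ rank` replaced by the number of
the Selmer homomorphisms.
-/

set_option autoImplicit false
set_option linter.unusedSectionVars false

namespace Run7.h318.BK.FM

open Finset Polynomial
open Pool.Agent.W262.RK hiding lk ff s1 s2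
open Run7.h69
open Run7.h69.FM hiding rank moments fam_moments
open Run7.h69.PK (xs TX MX cnt qq SqQ)
open UniqueFactorizationMonoid

variable {D G0 G1 : ℤ[X]} {z : ℕ}

/-- the moments for given data -/
theorem fam_moments (h : Cop D G0 G1) {n m : Fin 4 → ℕ}
    (hn : n = fun c => cnt (GG D G0 G1 c) (fun _ => True))
    (hm : m = fun c => if c = 3 then 0 else cnt (GG D G0 G1 c) (SqQ (KP D G0 G1 c 0)))
    (hpos : ∀ c : Fin 4, c ≠ 3 → n c < n 0 + n 1 + n 2 + n 3) {δ : ℝ} (h0 : 0 < δ) (h1 : δ ≤ 1)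
    (hcond : ∀ c : Fin 4, c ≠ 3 →
      (2 : ℝ) ^ δ * (n c + m c) ≤ 2 * ((n 0 : ℝ) + n 1 + n 2 - n c)) (L : ℕ) :
    ∃ (X0 : ℕ) (B : ℝ), ∀ (x : ℤ) (X : ℕ), x.natAbs ≤ X ^ L → X0 ≤ X →
      ∑ t ∈ NX.II (PQ D G0 G1) x X, (Run7.h318.BK.SN ((D * G0).eval t) ((D * G1).eval t) : ℝ) ^ δ ≤ B * X := by
  obtain ⟨z, M, F⟩ := exists_fam h
  rw [← hn, ← hm] at F
  have hmn : ∀ c, m c ≤ n c := by
    intro c
    rw [hm, hn]
    simp only
    split_ifs
    · exact Nat.zero_le _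
    · exact cnt_mono _ fun _ _ => trivial
  obtain ⟨C', hC'⟩ := avg F hmn hpos h0 h1 (fun c hc => cond_of h0 hc (hcond c hc))
  exact Run7.h318.BK.FM.moments L h0.le h1 F.gd F.mer hC'

end Run7.h318.BK.FM

namespace Run7.h318.BK.FZ

open Finset Polynomial
open Pool.Agent.W262.RK hiding lk ff s1 s2
open Run7.h69
open Run7.h69.PK (cnt qq SqQ)
open Run7.h69.FM hiding rank moments fam_moments
open Run7.h69.FZ hiding main
open UniqueFactorizationMonoid

/-- **the moments** -/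
theorem main (F0 F1 : ℤ[X]) (hsq : ∀ c : Fin 3, Squarefree (qq (FF F0 F1 c))) {δ : ℝ}
    (h0 : 0 < δ) (h1 : δ ≤ 1)
    (hcond : ∀ c : Fin 3, (2 : ℝ) ^ δ * ((num F0 F1 c (fun _ => True) : ℝ) +
      num F0 F1 c (fun q => ∃ s : ℚ[X], q ∣ qq (gam F0 F1 c) - s ^ 2)) ≤
      2 * ((num F0 F1 (c + 1) (fun _ => True) : ℝ) + num F0 F1 (c + 2) (fun _ => True)))
    (L : ℕ) :
    ∃ C : ℝ, ∀ (x : ℤ) (X : ℕ), 1 ≤ X → x.natAbs ≤ X ^ L →
      ∑ t ∈ JJ F0 F1 x X, (Run7.h318.BK.SN (F0.eval t) (F1.eval t) : ℝ) ^ δ ≤ C * X := by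
  classical
  obtain ⟨D, G0, G1, hF0, hF1, hCop, hnum⟩ := exists_data F0 F1 hsq
  set n : Fin 4 → ℕ := fun c => cnt (GG D G0 G1 c) (fun _ => True) with hn
  set m : Fin 4 → ℕ := fun c => if c = 3 then 0 else cnt (GG D G0 G1 c) (SqQ (KP D G0 G1 c 0))
    with hm
  have hnn : ∀ t : ℤ, 0 ≤ (Run7.h318.BK.SN (F0.eval t) (F1.eval t) : ℝ) ^ δ := fun t => by positivity
  have hJJ : ∀ x X, JJ F0 F1 x X ⊆ NX.II (PQ D G0 G1) x X := by
    intro x X t ht
    unfold JJ at ht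
    unfold NX.II
    rw [mem_filter] at ht ⊢
    obtain ⟨h2, h3, h4, h5⟩ := ht
    refine ⟨h2, ?_⟩
    rw [hF0, eval_mul] at h3
    rw [hF1, eval_mul] at h4
    rw [hF0, hF1, eval_mul, eval_mul] at h5
    rw [PQ_eval, eval_sub]
    refine mul_ne_zero (left_ne_zero_of_mul h3) (mul_ne_zero (right_ne_zero_of_mul h3)
      (mul_ne_zero (right_ne_zero_of_mul h4) (sub_ne_zero.2 fun h => h5 (by rw [h]))))
  have hcard : ∀ x X, ((JJ F0 F1 x X).card : ℝ) ≤ X := by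
    intro x X
    have h3 : (JJ F0 F1 x X).card ≤ X := by
      unfold JJ
      refine (card_filter_le _ _).trans ?_
      rw [Int.card_Ioc]
      simp
    exact_mod_cast h3
  -- the numbers
  have e0 : (num F0 F1 0 (fun _ => True)) = n 0 := hnum 0 _
  have e1 : (num F0 F1 1 (fun _ => True)) = n 1 := hnum 1 _
  have e2 : (num F0 F1 2 (fun _ => True)) = n 2 := hnum 2 _
  have g0 : gam F0 F1 0 = KP D G0 G1 0 0 := by
    show -F1 = -(D * G1)
    rw [hF1]
  have g1 : gam F0 F1 1 = KP D G0 G1 1 0 := by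
    show -F0 = -(D * G0)
    rw [hF0]
  have g2 : gam F0 F1 2 = KP D G0 G1 2 0 := by
    show F0 = D * G0
    rw [hF0]
  have m0 : (num F0 F1 0 (fun q => ∃ s : ℚ[X], q ∣ qq (gam F0 F1 0) - s ^ 2)) = m 0 := by
    rw [hnum 0, g0]
    rfl
  have m1 : (num F0 F1 1 (fun q => ∃ s : ℚ[X], q ∣ qq (gam F0 F1 1) - s ^ 2)) = m 1 := by
    rw [hnum 1, g1]
    rfl
  have m2 : (num F0 F1 2 (fun q => ∃ s : ℚ[X], q ∣ qq (gam F0 F1 2) - s ^ 2)) = m 2 := by
    rw [hnum 2, g2]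
    rfl
  have c0 := hcond 0
  have c1 := hcond 1
  have c2 := hcond 2
  rw [show (0 : Fin 3) + 1 = 1 from rfl, show (0 : Fin 3) + 2 = 2 from rfl, e0, e1, e2, m0] at c0
  rw [show (1 : Fin 3) + 1 = 2 from rfl, show (1 : Fin 3) + 2 = 0 from rfl, e0, e1, e2, m1] at c1
  rw [show (2 : Fin 3) + 1 = 0 from rfl, show (2 : Fin 3) + 2 = 1 from rfl, e0, e1, e2, m2] at c2
  have hcond4 : ∀ c : Fin 4, c ≠ 3 →
      (2 : ℝ) ^ δ * (n c + m c) ≤ 2 * ((n 0 : ℝ) + n 1 + n 2 - n c) := by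
    refine fin4 _ (fun _ => ?_) (fun _ => ?_) (fun _ => ?_) (fun h => absurd rfl h)
    · linarith
    · linarith
    · linarith
  have ht0 : (0 : ℝ) < (2 : ℝ) ^ δ := by positivity
  have hnc : ∀ c : Fin 4, c ≠ 3 → (n 0 : ℝ) + n 1 + n 2 - n c = 0 → n c = 0 := by
    intro c hc h
    have h2 := hcond4 c hc
    rw [h, mul_zero] at h2
    have h3 : (0 : ℝ) ≤ n c := Nat.cast_nonneg _
    have h4 : (0 : ℝ) ≤ m c := Nat.cast_nonneg _
    have h5 : (n c : ℝ) + m c ≤ 0 := by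
      by_contra hcon
      push Not at hcon
      have := mul_pos ht0 hcon
      linarith
    have h6 : (n c : ℝ) = 0 := by linarith
    exact_mod_cast h6
  rcases Nat.eq_zero_or_pos (n 0 + n 1 + n 2 + n 3) with hN | hN
  · -- constant polynomials
    have hz : ∀ c, ∃ k : ℤ, GG D G0 G1 c = C k := by
      intro c
      have hc : n c = 0 := by
        revert c
        refine fin4 _ ?_ ?_ ?_ ?_ <;> omega
      obtain ⟨k, _, hk⟩ := cnt_zero (hCop.ne c) hc
      exact ⟨k, hk⟩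
    obtain ⟨k0, hk0⟩ := hz 0
    obtain ⟨k1, hk1⟩ := hz 1
    obtain ⟨k3, hk3⟩ := hz 3
    rw [GG0] at hk0
    rw [GG1] at hk1
    rw [GG3] at hk3
    refine ⟨(Run7.h318.BK.SN (k3 * k0) (k3 * k1) : ℝ) ^ δ, fun x X _ _ => ?_⟩
    have h2 : ∀ t ∈ JJ F0 F1 x X, (Run7.h318.BK.SN (F0.eval t) (F1.eval t) : ℝ) ^ δ =
        (Run7.h318.BK.SN (k3 * k0) (k3 * k1) : ℝ) ^ δ := by
      intro t _
      rw [hF0, hF1, hk0, hk1, hk3, eval_mul, eval_mul, eval_C, eval_C, eval_C]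
    rw [sum_congr rfl h2, sum_const, nsmul_eq_mul, mul_comm]
    exact mul_le_mul_of_nonneg_left (hcard x X) (by positivity)
  · have hpos : ∀ c : Fin 4, c ≠ 3 → n c < n 0 + n 1 + n 2 + n 3 := by
      intro c hc
      by_contra hcon
      push Not at hcon
      have hle : n c ≤ n 0 + n 1 + n 2 := by
        revert c
        refine fin4 _ ?_ ?_ ?_ ?_
        · intro _ _; omega
        · intro _ _; omega
        · intro _ _; omega
        · intro h; exact absurd rfl h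
      have h3 : n 3 = 0 := by omega
      have h4 : n 0 + n 1 + n 2 = n c := by omega
      have h5 : (n 0 : ℝ) + n 1 + n 2 - n c = 0 := by
        have : ((n 0 + n 1 + n 2 : ℕ) : ℝ) = n c := by exact_mod_cast h4
        push_cast at this
        linarith
      have h6 := hnc c hc h5
      omega
    obtain ⟨X0, B, hB⟩ := Run7.h318.BK.FM.fam_moments hCop hn hm hpos h0 h1 hcond4 L
    set N : ℤ := (X0 : ℤ) ^ L + X0 with hNN
    set S : ℝ := ∑ t ∈ Icc (-N) N, (Run7.h318.BK.SN (F0.eval t) (F1.eval t) : ℝ) ^ δ with hS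
    have hS0 : 0 ≤ S := sum_nonneg fun t _ => hnn t
    refine ⟨|B| + S, fun x X hX hx => ?_⟩
    have hXr : (1 : ℝ) ≤ X := by exact_mod_cast hX
    rcases Nat.lt_or_ge X X0 with hXX | hXX
    · have h1 : ∑ t ∈ JJ F0 F1 x X, (Run7.h318.BK.SN (F0.eval t) (F1.eval t) : ℝ) ^ δ ≤ S := by
        refine sum_le_sum_of_subset_of_nonneg ?_ fun t _ _ => hnn t
        intro t ht
        unfold JJ at ht
        rw [mem_filter, mem_Ioc] at ht
        rw [mem_Icc]
        have h2 : (x.natAbs : ℤ) ≤ (X0 : ℤ) ^ L := by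
          exact_mod_cast hx.trans (Nat.pow_le_pow_left hXX.le L)
        have h3 : (X : ℤ) ≤ X0 := by exact_mod_cast hXX.le
        omega
      have h4 : 0 ≤ |B| := abs_nonneg _
      nlinarith
    · have h1 := hB x X hx hXX
      have h2 : ∑ t ∈ JJ F0 F1 x X, (Run7.h318.BK.SN (F0.eval t) (F1.eval t) : ℝ) ^ δ ≤
          ∑ t ∈ NX.II (PQ D G0 G1) x X, (Run7.h318.BK.SN ((D * G0).eval t) ((D * G1).eval t) : ℝ) ^ δ := by
        rw [← hF0, ← hF1]
        exact sum_le_sum_of_subset_of_nonneg (hJJ x X) fun t _ _ => hnn t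
      have h3 := le_abs_self B
      nlinarith

end Run7.h318.BK.FZ
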