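import Mathlib
import Pool.Agent.Run7.h318.BK.T2

/-!
# Moments of products of the numbers of Selmer homomorphisms over several polynomial twists
-/

set_option autoImplicit false

namespace Run7.h318.BK.PR

open Finset Polynomial
open Run7.h69

lemma prod_pow_le {r : ℕ} (hr : 0 < r) (k : ℕ) (x : Fin r → ℝ) (hx : ∀ i, 0 ≤ x i) :
    (∏ i, x i) ^ k ≤ ∑ i, x i ^ (r * k) := by
  obtain ⟨j, -, hj⟩ := exists_max_image (univ : Finset (Fin r)) x ⟨⟨0, hr⟩, mem_univ _⟩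
  have h1 : ∏ i, x i ≤ x j ^ r := by
    calc ∏ i, x i ≤ ∏ _i : Fin r, x j := prod_le_prod (fun i _ => hx i) fun i _ => hj i (mem_univ _)
      _ = x j ^ r := by rw [prod_const, card_univ, Fintype.card_fin]
  calc (∏ i, x i) ^ k ≤ (x j ^ r) ^ k := pow_le_pow_left₀ (prod_nonneg fun i _ => hx i) h1 k
    _ = x j ^ (r * k) := (pow_mul _ _ _).symm
    _ ≤ ∑ i, x i ^ (r * k) :=
        single_le_sum (f := fun i => x i ^ (r * k)) (fun i _ => pow_nonneg (hx i) _) (mem_univ j)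

/-- the moments over the products -/
theorem prods {r : ℕ} (a b : Fin r → ℤ) (ha : ∀ i, a i ≠ 0) (hb : ∀ i, b i ≠ 0)
    (hab : ∀ i, a i ≠ b i) (f : Fin r → ℤ[X]) (k M : ℕ) :
    ∃ C : ℝ, ∀ (x : ℤ) (X : ℕ), 1 ≤ X → x.natAbs ≤ X ^ M →
      ∑ t ∈ (Ioc x (x + X)).filter (fun t => ∀ i, (f i).eval t ≠ 0),
        (∏ i, TM.rr (a i) (b i) ((f i).eval t)) ^ k ≤ C * X := by
  classical
  rcases Nat.eq_zero_or_pos r with hr | hr
  · subst hr
    refine ⟨1, fun x X _ _ => ?_⟩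
    have h1 : ∀ t ∈ (Ioc x (x + X)).filter (fun t => ∀ i, (f i).eval t ≠ 0),
        (∏ i, TM.rr (a i) (b i) ((f i).eval t)) ^ k = 1 := by
      intro t _
      simp
    rw [sum_congr rfl h1, sum_const, nsmul_eq_mul, mul_one, one_mul]
    have h3 : ((Ioc x (x + X)).filter (fun t => ∀ i, (f i).eval t ≠ 0)).card ≤ X := by
      refine (card_filter_le _ _).trans ?_
      rw [Int.card_Ioc]
      simp
    exact_mod_cast h3
  choose C hC using fun i => TM.main (ha i) (hb i) (hab i) (f i) (r * k) M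
  refine ⟨∑ i, C i, fun x X hX hx => ?_⟩
  calc ∑ t ∈ (Ioc x (x + X)).filter (fun t => ∀ i, (f i).eval t ≠ 0),
        (∏ i, TM.rr (a i) (b i) ((f i).eval t)) ^ k
      ≤ ∑ t ∈ (Ioc x (x + X)).filter (fun t => ∀ i, (f i).eval t ≠ 0),
        ∑ i, TM.rr (a i) (b i) ((f i).eval t) ^ (r * k) :=
        sum_le_sum fun t _ => prod_pow_le hr k _ fun i => TM.rr_nonneg _ _ _
    _ = ∑ i, ∑ t ∈ (Ioc x (x + X)).filter (fun t => ∀ i, (f i).eval t ≠ 0),
        TM.rr (a i) (b i) ((f i).eval t) ^ (r * k) := sum_comm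
    _ ≤ ∑ i, C i * X := by
        refine sum_le_sum fun i _ => le_trans ?_ (hC i x X hX hx)
        refine sum_le_sum_of_subset_of_nonneg ?_ fun t _ _ => pow_nonneg (TM.rr_nonneg _ _ _) _
        intro t ht
        unfold NX.II
        rw [mem_filter] at ht ⊢
        exact ⟨ht.1, ht.2 i⟩
    _ = _ := by rw [sum_mul]

end Run7.h318.BK.PR
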