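import Mathlib

/-!
# The dimension of a `ℚ_p`-vector space with a lattice whose quotient modulo `p` is finite
-/

set_option autoImplicit false

namespace Run7.h318.BK

open Filter Topology

variable {p : ℕ} [hp : Fact p.Prime] {V M : Type*} [AddCommGroup V] [Module ℚ_[p] V]
  [AddCommGroup M]

/-- a `ℤ_p`-stable, separated subgroup that spans, and a homomorphism that detects the divisibility
by `p` and has finite image on it -/
structure Lat (L : AddSubgroup V) (f : V →+ M) : Prop where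
  smul : ∀ (a : ℤ_[p]) (x : V), x ∈ L → (a : ℚ_[p]) • x ∈ L
  span : ∀ x : V, ∃ k : ℕ, (p : ℚ_[p]) ^ k • x ∈ L
  sep : ∀ x : V, (∀ k : ℕ, ((p : ℚ_[p]) ^ k)⁻¹ • x ∈ L) → x = 0
  ker : ∀ x ∈ L, f x = 0 → (p : ℚ_[p])⁻¹ • x ∈ L
  tor : ∀ x ∈ L, p • f x = 0

lemma dvd_of_norm {a : ℤ_[p]} {k : ℕ} (h : ‖a‖ ≤ (p : ℝ) ^ (-(k : ℤ))) :
    ∃ b : ℤ_[p], a = (p : ℤ_[p]) ^ k * b := by
  rw [PadicInt.norm_le_pow_iff_mem_span_pow, Ideal.mem_span_singleton] at h
  exact h

theorem Lat.fin {L : AddSubgroup V} {f : V →+ M} (h : Lat (p := p) L f) {S : Set M}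
    (hS : S.Finite) (hLS : ∀ x ∈ L, f x ∈ S) :
    Module.Finite ℚ_[p] V ∧ p ^ Module.finrank ℚ_[p] V ≤ S.ncard := by
  classical
  have hp0 : (p : ℚ_[p]) ≠ 0 := by exact_mod_cast hp.out.ne_zero
  set G : AddSubgroup M := AddSubgroup.map f L with hG
  have hGS : (G : Set M) ⊆ S := by
    rintro _ ⟨x, hx, rfl⟩
    exact hLS x hx
  have hGf : Finite G := (hS.subset hGS).to_subtype
  have hGp : ∀ x : G, p • x = 0 := by
    rintro ⟨_, x, hx, rfl⟩
    apply Subtype.ext
    exact h.tor x hx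
  let instM : Module (ZMod p) G := AddCommGroup.zmodModule (n := p) hGp
  have hfin : Module.Finite (ZMod p) G := Module.Finite.of_finite
  obtain ⟨r, hr⟩ : ∃ r : ℕ, r = Module.finrank (ZMod p) G := ⟨_, rfl⟩
  have b : Module.Basis (Fin r) (ZMod p) G := (Module.finBasis (ZMod p) G).reindex (finCongr hr.symm)
  have hcard : Nat.card G = p ^ r := by
    have := Module.natCard_eq_pow_finrank (K := ZMod p) (V := G)
    rw [this, Nat.card_zmod, hr]
  -- the generators
  have hg : ∀ i, ∃ x : V, x ∈ L ∧ f x = b i := fun i => (b i).2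
  choose g hgL hgf using hg
  -- one step
  have step : ∀ x ∈ L, ∃ (n : Fin r → ℕ) (y : V), y ∈ L ∧
      x = ∑ i, (n i : ℚ_[p]) • g i + (p : ℚ_[p]) • y := by
    intro x hx
    set v : G := ⟨f x, x, hx, rfl⟩ with hv
    set n : Fin r → ℕ := fun i => (b.repr v i).val with hn
    have h1 : f x = ∑ i, n i • f (g i) := by
      have h2 : v = ∑ i, n i • b i := by
        conv_lhs => rw [← b.sum_repr v]
        refine Finset.sum_congr rfl fun i _ => ?_
        rw [hn]
        simp only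
        rw [← Nat.cast_smul_eq_nsmul (ZMod p), ZMod.natCast_zmod_val]
      have h3 := congrArg Subtype.val h2
      rw [AddSubmonoidClass.coe_finsetSum] at h3
      rw [show f x = v.1 from rfl, h3]
      refine Finset.sum_congr rfl fun i _ => ?_
      rw [AddSubmonoidClass.coe_nsmul, hgf]
    set z : V := x - ∑ i, n i • g i with hz
    have hzL : z ∈ L := L.sub_mem hx (L.sum_mem fun i _ => L.nsmul_mem (hgL i) _)
    have hz0 : f z = 0 := by
      rw [hz, map_sub, map_sum, h1, sub_eq_zero]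
      refine Finset.sum_congr rfl fun i _ => ?_
      rw [map_nsmul]
    refine ⟨n, (p : ℚ_[p])⁻¹ • z, h.ker z hzL hz0, ?_⟩
    rw [smul_inv_smul₀ hp0, hz]
    have e : ∑ i, (n i : ℚ_[p]) • g i = ∑ i, n i • g i :=
      Finset.sum_congr rfl fun i _ => Nat.cast_smul_eq_nsmul _ _ _
    rw [e]
    abel
  -- iteration
  have iter : ∀ x ∈ L, ∀ K : ℕ, ∃ (n : Fin r → ℕ) (y : V), y ∈ L ∧
      x = ∑ i, (n i : ℚ_[p]) • g i + (p : ℚ_[p]) ^ K • y := by
    intro x hx K
    induction K with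
    | zero => exact ⟨0, x, hx, by simp⟩
    | succ K ih =>
      obtain ⟨n, y, hy, hxy⟩ := ih
      obtain ⟨m, z, hz, hyz⟩ := step y hy
      refine ⟨fun i => n i + p ^ K * m i, z, hz, ?_⟩
      rw [hxy]
      nth_rw 1 [hyz]
      rw [smul_add, Finset.smul_sum, ← add_assoc, ← Finset.sum_add_distrib, smul_smul, ← pow_succ]
      congr 1
      refine Finset.sum_congr rfl fun i _ => ?_
      rw [smul_smul, ← add_smul]
      push_cast
      rfl
  -- the limit
  have lim : ∀ x ∈ L, ∃ A : Fin r → ℤ_[p], x = ∑ i, ((A i : ℤ_[p]) : ℚ_[p]) • g i := by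
    intro x hx
    choose n y hy hxy using iter x hx
    obtain ⟨A, φ, hφ, hA⟩ := CompactSpace.tendsto_subseq (fun K => (fun i => (n K i : ℤ_[p]) :
      Fin r → ℤ_[p]))
    refine ⟨A, sub_eq_zero.1 (h.sep _ fun k => ?_)⟩
    have hε : (0 : ℝ) < (p : ℝ) ^ (-(k : ℤ)) := by
      have : (0 : ℝ) < p := by exact_mod_cast hp.out.pos
      positivity
    have h1 : ∀ᶠ j in atTop, dist ((fun K => (fun i => (n K i : ℤ_[p]) : Fin r → ℤ_[p])) (φ j)) A <
        (p : ℝ) ^ (-(k : ℤ)) := by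
      have := Metric.tendsto_atTop.1 hA _ hε
      obtain ⟨N, hN⟩ := this
      exact eventually_atTop.2 ⟨N, hN⟩
    obtain ⟨j, hj1, hj2⟩ := (h1.and (eventually_ge_atTop k)).exists
    have hφj : k ≤ φ j := hj2.trans (hφ.id_le j)
    have h2 : ∀ i, ∃ e : ℤ_[p], (n (φ j) i : ℤ_[p]) - A i = (p : ℤ_[p]) ^ k * e := by
      intro i
      apply dvd_of_norm
      rw [← dist_eq_norm]
      exact ((dist_le_pi_dist _ _ i).trans_lt hj1).le
    choose e he using h2
    have h3 : x - ∑ i, ((A i : ℤ_[p]) : ℚ_[p]) • g i =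
        (p : ℚ_[p]) ^ k • (∑ i, ((e i : ℤ_[p]) : ℚ_[p]) • g i +
          (p : ℚ_[p]) ^ (φ j - k) • y (φ j)) := by
      rw [smul_add, smul_smul, ← pow_add, Nat.add_sub_cancel' hφj, Finset.smul_sum]
      nth_rw 1 [hxy (φ j)]
      rw [add_sub_right_comm, ← Finset.sum_sub_distrib]
      congr 1
      refine Finset.sum_congr rfl fun i _ => ?_
      rw [← sub_smul, smul_smul]
      congr 1
      have h4 := congrArg (fun a : ℤ_[p] => (a : ℚ_[p])) (he i)
      push_cast at h4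
      exact h4
    rw [h3, inv_smul_smul₀ (pow_ne_zero k hp0)]
    refine L.add_mem (L.sum_mem fun i _ => h.smul _ _ (hgL i)) ?_
    have h5 := h.smul ((p : ℤ_[p]) ^ (φ j - k)) (y (φ j)) (hy _)
    push_cast at h5
    exact h5
  -- the span
  have hspan : Submodule.span ℚ_[p] (Set.range g) = ⊤ := by
    rw [eq_top_iff]
    intro x _
    obtain ⟨k, hk⟩ := h.span x
    obtain ⟨A, hA⟩ := lim _ hk
    have h1 : x = ∑ i, (((p : ℚ_[p]) ^ k)⁻¹ * ((A i : ℤ_[p]) : ℚ_[p])) • g i := by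
      rw [← inv_smul_smul₀ (pow_ne_zero k hp0) x, hA, Finset.smul_sum]
      refine Finset.sum_congr rfl fun i _ => ?_
      rw [smul_smul]
    rw [h1]
    exact Submodule.sum_mem _ fun i _ =>
      Submodule.smul_mem _ _ (Submodule.subset_span ⟨i, rfl⟩)
  have hF : Module.Finite ℚ_[p] V := by
    rw [Module.finite_def, ← hspan]
    exact Submodule.fg_span (Set.finite_range g)
  refine ⟨hF, ?_⟩
  have h1 : Module.finrank ℚ_[p] V ≤ r := by
    have h2 := finrank_range_le_card (R := ℚ_[p]) g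
    rw [Set.finrank, hspan, finrank_top, Fintype.card_fin] at h2
    exact h2
  calc p ^ Module.finrank ℚ_[p] V ≤ p ^ r := Nat.pow_le_pow_right hp.out.pos h1
    _ = Nat.card G := hcard.symm
    _ = (G : Set M).ncard := rfl
    _ ≤ S.ncard := Set.ncard_le_ncard hGS hS

end Run7.h318.BK
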