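import Pool.Agent.Run7.h318.BK.Def
import Pool.Agent.Run7.h318.BK.Lat
import Pool.Agent.Run7.h318.SH.Iso

/-!
# The dimension of `H¹_f(ℚ, V_2(W))` is bounded by the number of the Selmer homomorphisms
-/

set_option autoImplicit false

namespace Run7.h318.BK

open WeierstrassCurve

open scoped Classical

open Pool.Agent.W262.SH (QB Pt act LocTriv E IsSel)
open Pool.Agent.Y700 (VR eL eL_act)
open Run7.h318.SH (act_tors isR_E)

section

variable {p : ℕ} [hp : Fact p.Prime]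

lemma split (t : ℤ_[p]) (m : ℕ) : ∃ (n : ℕ) (s : ℤ_[p]), t = n + (p : ℤ_[p]) ^ m * s := by
  have h := PadicInt.appr_spec m t
  rw [Ideal.mem_span_singleton] at h
  obtain ⟨s, hs⟩ := h
  exact ⟨t.appr m, s, by rw [← hs]; ring⟩

lemma exists_pow_mul (t : ℚ_[p]) : ∃ (k : ℕ) (s : ℤ_[p]), (p : ℚ_[p]) ^ k * t = s := by
  have hp1 : 1 < (p : ℝ) := by exact_mod_cast hp.out.one_lt
  obtain ⟨n, hn⟩ := pow_unbounded_of_one_lt ‖t‖ hp1
  have h : ‖(p : ℚ_[p]) ^ n * t‖ ≤ 1 := by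
    rw [norm_mul, norm_pow, Padic.norm_p, inv_pow]
    have h0 : (0 : ℝ) < (p : ℝ) ^ n := by positivity
    rw [inv_mul_le_iff₀ h0, mul_one]
    exact hn.le
  exact ⟨n, ⟨_, h⟩, rfl⟩

variable {A : Type} [AddCommGroup A]

lemma hm_nsmul (φ : Hm p A) (n : ℕ) (t : ℚ_[p]) : φ (n * t) = n • φ t := by
  rw [← nsmul_eq_mul, map_nsmul]

variable (p) (W : WeierstrassCurve ℚ)

/-- the cocycles with values in `T_p(W)` -/
noncomputable def latt : AddSubgroup (selV p W) where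
  carrier := {c | ∀ (σ : Gal) (t : ℤ_[p]), c.1 σ (t : ℚ_[p]) = 0}
  zero_mem' := fun σ t => rfl
  add_mem' := fun {c d} hc hd σ t => by
    show c.1 σ t + d.1 σ t = 0
    rw [hc, hd, add_zero]
  neg_mem' := fun {c} hc σ t => by
    show -(c.1 σ t) = 0
    rw [hc, neg_zero]

variable {p W} {W' : WeierstrassCurve ℚ} {u r s t : ℚ}

instance : CompactSpace Gal := inferInstanceAs (CompactSpace (QB ≃ₐ[ℚ] QB))

/-- the isomorphism on the points over the algebraic closure of `K` -/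
noncomputable def eK (h : VR W W' u r s t) (hD : W'.Δ ≠ 0) (K : Type) [Field K] [Algebra ℚ K] :
    PtL W' K ≃+ Pt W (AlgebraicClosure K) := eL h hD (AlgebraicClosure K)

/-- the isomorphism on the algebraic points -/
noncomputable def eQ (h : VR W W' u r s t) (hD : W'.Δ ≠ 0) : PtQ W' ≃+ Pt W QB := eL h hD QB

lemma eQ_act (h : VR W W' u r s t) (hD : W'.Δ ≠ 0) (σ : QB ≃ₐ[ℚ] QB) (P : PtQ W') :
    eQ h hD (sact W' σ P) = act W σ.toAlgHom (eQ h hD P) :=
  eL_act h hD _ P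

lemma eK_emb (h : VR W W' u r s t) (hD : W'.Δ ≠ 0) {K : Type} [Field K] [Algebra ℚ K]
    (ι : QB →ₐ[ℚ] AlgebraicClosure K) (P : PtQ W') :
    eK h hD K (emb W' ι P) = act W ι (eQ h hD P) :=
  eL_act h hD _ P

lemma eK_lact (h : VR W W' u r s t) (hD : W'.Δ ≠ 0) {K : Type} [Field K] [Algebra ℚ K]
    (τ : AlgebraicClosure K ≃ₐ[K] AlgebraicClosure K) (P : PtL W' K) :
    eK h hD K (lact W' τ P) = act W (τ.toAlgHom.restrictScalars ℚ) (eK h hD K P) :=
  eL_act h hD _ P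

/-- the reduction modulo `p` -/
noncomputable def red (h : VR W W' u r s t) (hD : W'.Δ ≠ 0) :
    selV p W' →+ ((QB ≃ₐ[ℚ] QB) → Pt W QB) where
  toFun c := fun σ => eQ h hD (c.1 (show Gal from σ) (p : ℚ_[p])⁻¹)
  map_zero' := by
    funext σ
    exact map_zero (eQ h hD)
  map_add' c d := by
    funext σ
    exact map_add (eQ h hD) _ _

lemma lat (h : VR W W' u r s t) (hD : W'.Δ ≠ 0) : Lat (p := p) (latt p W') (red h hD) := by
  have hp0 : (p : ℚ_[p]) ≠ 0 := by exact_mod_cast hp.out.ne_zero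
  constructor
  · intro a c hc σ t
    have := hc σ (a * t)
    push_cast at this
    exact this
  · rintro ⟨c, ⟨⟨a1, a2, a3⟩, a4⟩⟩
    have hfin : (Set.range fun σ => c σ 1).Finite := (a2 1).range_finite
    have hex : ∀ y ∈ Set.range (fun σ => c σ 1), ∃ k : ℕ, (p ^ k : ℕ) • y = 0 := by
      rintro y ⟨σ, rfl⟩
      obtain ⟨m, hm⟩ := a1 σ
      refine ⟨m, ?_⟩
      have h1 := hm 1
      rw [PadicInt.coe_one] at h1
      show (p ^ m : ℕ) • c σ 1 = 0
      rw [← hm_nsmul]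
      push_cast
      exact h1
    choose! k hk using hex
    obtain ⟨K, hK⟩ := (hfin.image k).bddAbove
    have h2 : ∀ σ, (p ^ K : ℕ) • c σ 1 = 0 := by
      intro σ
      have h1 := hk _ (Set.mem_range_self σ)
      have h2 : k (c σ 1) ≤ K := hK ⟨_, Set.mem_range_self σ, rfl⟩
      rw [← Nat.sub_add_cancel h2, pow_add, mul_smul, h1, smul_zero]
    refine ⟨K, fun σ t => ?_⟩
    show c σ ((p : ℚ_[p]) ^ K * t) = 0
    obtain ⟨m, hm⟩ := a1 σ
    obtain ⟨n, s', rfl⟩ := split t m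
    push_cast
    have e : (p : ℚ_[p]) ^ K * ((n : ℚ_[p]) + (p : ℚ_[p]) ^ m * s') =
        (n : ℕ) * (((p ^ K : ℕ) : ℚ_[p]) * 1) + (p : ℚ_[p]) ^ (m + K) * s' := by
      push_cast
      rw [pow_add]
      ring
    rw [e, map_add, hm_nsmul, hm_nsmul, h2, smul_zero, zero_add]
    exact IsV.of_le (Nat.le_add_right m K) hm s'
  · intro c hc
    apply Subtype.ext
    funext σ
    refine Hm.ext fun t => ?_
    obtain ⟨k, s', hs⟩ := exists_pow_mul t
    have h1 : c.1 σ (((p : ℚ_[p]) ^ k)⁻¹ * s') = 0 := hc k σ s'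
    rw [← hs, inv_mul_cancel_left₀ (pow_ne_zero k hp0)] at h1
    exact h1
  · intro c hc h0 σ t
    show c.1 σ ((p : ℚ_[p])⁻¹ * t) = 0
    have h1 : c.1 σ (p : ℚ_[p])⁻¹ = 0 := by
      have h2 : eQ h hD (c.1 σ (p : ℚ_[p])⁻¹) = 0 := congrFun h0 σ
      exact (map_eq_zero_iff _ (eQ h hD).injective).1 h2
    obtain ⟨n, s', rfl⟩ := split t 1
    push_cast
    have e : (p : ℚ_[p])⁻¹ * ((n : ℚ_[p]) + (p : ℚ_[p]) ^ 1 * s') =
        (n : ℕ) * (p : ℚ_[p])⁻¹ + s' := by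
      field_simp
    rw [e, map_add, hm_nsmul, h1, smul_zero, zero_add]
    exact hc σ s'
  · intro c hc
    funext σ
    show p • eQ h hD (c.1 (show Gal from σ) (p : ℚ_[p])⁻¹) = 0
    rw [← map_nsmul, ← hm_nsmul, mul_inv_cancel₀ hp0]
    have h1 := hc (show Gal from σ) 1
    rw [PadicInt.coe_one] at h1
    rw [h1, map_zero]

end

/-- **The dimension of the Bloch–Kato Selmer group is bounded by the number of the Selmer
homomorphisms.** -/
theorem dim_le {A B : ℤ} {W : WeierstrassCurve ℚ} {u r s t : ℚ} (h : VR (E A B) W u r s t)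
    (hD : W.Δ ≠ 0) (hfin : {h | IsSel A B h}.Finite) :
    Module.Finite ℚ_[2] (H1f 2 W) ∧ 2 ^ dimH1f 2 W ≤ {h | IsSel A B h}.ncard := by
  obtain ⟨h1, h2⟩ := (lat (p := 2) h hD).fin hfin (by
    rintro c hc
    obtain ⟨⟨a1, a2, a3⟩, a4⟩ := c.2
    have htor : ∀ σ, red h hD c σ + red h hD c σ = 0 := by
      intro σ
      have := congrFun ((lat (p := 2) h hD).tor c hc) σ
      rw [← two_nsmul]
      exact this
    refine ⟨(a2 (((2 : ℕ) : ℚ_[2])⁻¹)).comp (eQ h hD), htor, fun σ τ => ?_, fun l _ hl ι => ?_⟩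
    · have h3 : red h hD c (σ * τ) = red h hD c σ +
          act (E A B) (AlgEquiv.toAlgHom σ) (red h hD c τ) := by
        have h5 := congrArg (eQ h hD) (a3 σ τ (((2 : ℕ) : ℚ_[2])⁻¹))
        rw [map_add, eQ_act] at h5
        exact h5
      rw [h3, act_tors (isR_E A B) (htor τ) σ]
    · obtain ⟨ψ, hψ⟩ := a4 l ι
      refine ⟨eK h hD ℚ_[l] (ψ (((2 : ℕ) : ℚ_[2])⁻¹)), fun τ σ hτ => ?_⟩
      have h5 := congrArg (eK h hD ℚ_[l]) (hψ τ σ hτ (((2 : ℕ) : ℚ_[2])⁻¹))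
      rw [eK_emb, map_sub, eK_lact] at h5
      exact h5)
  have h0 : Module.Finite ℚ_[2] (ZV 2 W) := h1
  have h3 : Module.Finite ℚ_[2] (ZV 2 W ⧸ BV 2 W) := Module.Finite.quotient _ _
  refine ⟨h3, le_trans ?_ h2⟩
  exact Nat.pow_le_pow_right (by norm_num) (Submodule.finrank_quotient_le (BV 2 W))

end Run7.h318.BK
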