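import Mathlib
import Pool.Agent.W262.SH.Stm

/-!
# The Bloch–Kato Selmer group `H¹_f(ℚ, V_p(W))` as a vector space over `ℚ_p`

For an abelian group `A` (later the group of the points of an elliptic curve over an algebraically
closed field) the rational Tate module `V_p(A) = T_p(A) ⊗ ℚ_p` is the space of the homomorphisms
from `ℚ_p` to `A` that vanish on `p ^ m ℤ_p` for some `m`: the element `x` of `V_p(A)` corresponds
to the homomorphism that maps `t` to the class of `t x` in `V_p(A) / T_p(A) = A[p ^ ∞]`. The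
subgroup `T_p(A) = Hom(ℚ_p / ℤ_p, A)` consists of those that vanish on `ℤ_p`. The number `q` acts by
`(q φ)(t) = φ(q t)`.

`Pt W L` are the points of `W` over `L`, `QB` is the algebraic closure of `ℚ`, `act W φ` is the map
on the points given by the homomorphism `φ` of fields (`Pool/Agent/W262/SH/Stm.lean`).
-/

set_option autoImplicit false

namespace Run7.h318.BK

open WeierstrassCurve

open scoped Classical

open Pool.Agent.W262.SH (QB Pt act)

section

variable (p : ℕ) [Fact p.Prime] (A : Type) [AddCommGroup A]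

/-- The group of the homomorphisms from the additive group of `ℚ_p` to `A`. -/
def Hm : Type := ℚ_[p] →+ A

noncomputable instance : AddCommGroup (Hm p A) := (inferInstance : AddCommGroup (ℚ_[p] →+ A))

noncomputable instance : FunLike (Hm p A) ℚ_[p] A := (inferInstance : FunLike (ℚ_[p] →+ A) ℚ_[p] A)

instance : AddMonoidHomClass (Hm p A) ℚ_[p] A :=
  (inferInstance : AddMonoidHomClass (ℚ_[p] →+ A) ℚ_[p] A)

variable {p A}

@[ext] lemma Hm.ext {φ ψ : Hm p A} (h : ∀ t, φ t = ψ t) : φ = ψ := DFunLike.ext _ _ h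

lemma Hm.add_apply (φ ψ : Hm p A) (t : ℚ_[p]) : (φ + ψ) t = φ t + ψ t := rfl

lemma Hm.neg_apply (φ : Hm p A) (t : ℚ_[p]) : (-φ) t = -φ t := rfl

lemma Hm.sub_apply (φ ψ : Hm p A) (t : ℚ_[p]) : (φ - ψ) t = φ t - ψ t := rfl

lemma Hm.zero_apply (t : ℚ_[p]) : (0 : Hm p A) t = 0 := rfl

/-- The number `q` acts on the homomorphisms from `ℚ_p` to `A` by `(q φ)(t) = φ(q t)`. -/
noncomputable instance : Module ℚ_[p] (Hm p A) where
  smul q φ := AddMonoidHom.comp (φ : ℚ_[p] →+ A) (AddMonoidHom.mulLeft q)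
  one_smul φ := Hm.ext fun t => congrArg φ (one_mul t)
  mul_smul q r φ := Hm.ext fun t => congrArg φ (by
    show q * r * t = r * (q * t)
    ring)
  smul_zero q := rfl
  smul_add q φ ψ := rfl
  add_smul q r φ := Hm.ext fun t => by
    show φ ((q + r) * t) = φ (q * t) + φ (r * t)
    rw [add_mul, map_add]
  zero_smul φ := Hm.ext fun t => by
    show φ (0 * t) = 0
    rw [zero_mul, map_zero]

lemma Hm.smul_apply (q : ℚ_[p]) (φ : Hm p A) (t : ℚ_[p]) : (q • φ) t = φ (q * t) := rfl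

/-- `φ` is an element of the rational Tate module `V_p(A)`: it vanishes on `p ^ m ℤ_p` for some
`m`. -/
def IsV (φ : Hm p A) : Prop := ∃ m : ℕ, ∀ t : ℤ_[p], φ ((p : ℚ_[p]) ^ m * t) = 0

lemma IsV.of_le {φ : Hm p A} {m n : ℕ} (hmn : m ≤ n)
    (h : ∀ t : ℤ_[p], φ ((p : ℚ_[p]) ^ m * t) = 0) (t : ℤ_[p]) : φ ((p : ℚ_[p]) ^ n * t) = 0 := by
  obtain ⟨k, rfl⟩ := Nat.exists_eq_add_of_le hmn
  have := h ((p : ℤ_[p]) ^ k * t)
  push_cast at this
  rw [pow_add, mul_assoc]
  exact this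

lemma isV_zero : IsV (0 : Hm p A) := ⟨0, fun _ => rfl⟩

lemma IsV.add {φ ψ : Hm p A} (h1 : IsV φ) (h2 : IsV ψ) : IsV (φ + ψ) := by
  obtain ⟨m, hm⟩ := h1
  obtain ⟨n, hn⟩ := h2
  refine ⟨max m n, fun t => ?_⟩
  rw [Hm.add_apply, IsV.of_le (le_max_left m n) hm, IsV.of_le (le_max_right m n) hn, add_zero]

lemma IsV.smul {φ : Hm p A} (h : IsV φ) (q : ℚ_[p]) : IsV (q • φ) := by
  obtain ⟨m, hm⟩ := h
  by_cases hq : q = 0
  · subst hq
    exact ⟨0, fun t => by rw [zero_smul]; rfl⟩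
  -- choose `n` with `p ^ n q` in `ℤ_p`
  obtain ⟨n, hn⟩ : ∃ n : ℕ, ‖(p : ℚ_[p]) ^ n * q‖ ≤ 1 := by
    have hp : 1 < (p : ℝ) := by exact_mod_cast (Fact.out : p.Prime).one_lt
    obtain ⟨n, hn⟩ := pow_unbounded_of_one_lt ‖q‖ hp
    refine ⟨n, ?_⟩
    rw [norm_mul, norm_pow, Padic.norm_p, inv_pow]
    have h0 : (0 : ℝ) < (p : ℝ) ^ n := by positivity
    rw [inv_mul_le_iff₀ h0, mul_one]
    exact hn.le
  refine ⟨m + n, fun t => ?_⟩
  have h1 := hm (⟨(p : ℚ_[p]) ^ n * q, hn⟩ * t)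
  rw [Hm.smul_apply]
  push_cast at h1
  rw [← h1]
  congr 1
  rw [pow_add]
  ring

end

/-- The absolute Galois group of `ℚ`. -/
def Gal : Type := QB ≃ₐ[ℚ] QB

noncomputable instance : Group Gal := (inferInstance : Group (QB ≃ₐ[ℚ] QB))

noncomputable instance : TopologicalSpace Gal := (inferInstance : TopologicalSpace (QB ≃ₐ[ℚ] QB))

/-- The group `W(K̄)` of the points over the algebraic closure of the field `K`, which is `ℚ` or
`ℚ_l`. -/
def PtL (W : WeierstrassCurve ℚ) (K : Type) [Field K] [Algebra ℚ K] : Type :=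
  Pt W (AlgebraicClosure K)

noncomputable instance (W : WeierstrassCurve ℚ) (K : Type) [Field K] [Algebra ℚ K] :
    AddCommGroup (PtL W K) := (inferInstance : AddCommGroup (Pt W (AlgebraicClosure K)))

/-- The group `W(ℚ̄)` of the algebraic points. -/
def PtQ (W : WeierstrassCurve ℚ) : Type := Pt W QB

noncomputable instance (W : WeierstrassCurve ℚ) : AddCommGroup (PtQ W) :=
  (inferInstance : AddCommGroup (Pt W QB))

/-- The action of the Galois group on `W(ℚ̄)`. -/
noncomputable def sact (W : WeierstrassCurve ℚ) (σ : Gal) : PtQ W →+ PtQ W :=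
  act W (AlgEquiv.toAlgHom (R := ℚ) (A₁ := QB) (A₂ := QB) σ)

/-- The absolute Galois group of the field `K`. -/
def GalL (K : Type) [Field K] : Type := AlgebraicClosure K ≃ₐ[K] AlgebraicClosure K

/-- The embeddings of `ℚ̄` in the algebraic closure of the field `K`. -/
def Emb (K : Type) [Field K] [Algebra ℚ K] : Type := QB →ₐ[ℚ] AlgebraicClosure K

variable {K : Type} [Field K] [Algebra ℚ K]

/-- The map `W(ℚ̄) → W(K̄)` given by the embedding `ι`. -/
noncomputable def emb (W : WeierstrassCurve ℚ) (ι : Emb K) : PtQ W →+ PtL W K := act W ι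

/-- The action of the absolute Galois group of `K` on `W(K̄)`. -/
noncomputable def lact (W : WeierstrassCurve ℚ) (τ : GalL K) : PtL W K →+ PtL W K :=
  act W ((AlgEquiv.toAlgHom (R := K) (A₁ := AlgebraicClosure K) (A₂ := AlgebraicClosure K)
    τ).restrictScalars ℚ)

/-- `σ` is the restriction of `τ` to `ℚ̄`, embedded by `ι`. -/
def IsRes (ι : Emb K) (τ : GalL K) (σ : Gal) : Prop :=
  ((AlgEquiv.toAlgHom (R := K) (A₁ := AlgebraicClosure K) (A₂ := AlgebraicClosure K)
    τ).restrictScalars ℚ).comp ι = AlgHom.comp ι (AlgEquiv.toAlgHom (R := ℚ) (A₁ := QB) (A₂ := QB) σ)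

/-- The functions on the absolute Galois group of `ℚ` whose values are homomorphisms from `ℚ_p` to
the group of the algebraic points of `W`. -/
def Coch (p : ℕ) [Fact p.Prime] (W : WeierstrassCurve ℚ) : Type := Gal → Hm p (PtQ W)

noncomputable instance (p : ℕ) [Fact p.Prime] (W : WeierstrassCurve ℚ) :
    AddCommGroup (Coch p W) := (inferInstance : AddCommGroup (Gal → Hm p (PtQ W)))

noncomputable instance (p : ℕ) [Fact p.Prime] (W : WeierstrassCurve ℚ) :
    Module ℚ_[p] (Coch p W) := (inferInstance : Module ℚ_[p] (Gal → Hm p (PtQ W)))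

variable {p : ℕ} [Fact p.Prime] {W : WeierstrassCurve ℚ}

/-- `c` is a continuous cocycle with values in `V_p(W)`. -/
def IsCocV (c : Coch p W) : Prop :=
  (∀ σ, IsV (c σ)) ∧ (∀ t, IsLocallyConstant fun σ => c σ t) ∧
    ∀ (σ τ : Gal) (t : ℚ_[p]), c (σ * τ) t = c σ t + sact W σ (c τ t)

/-- `c` is the coboundary of an element `φ` of `V_p(W)`: `c σ = σ φ - φ`. -/
def IsCobV (c : Coch p W) : Prop :=
  ∃ φ : Hm p (PtQ W), IsV φ ∧ ∀ (σ : Gal) (t : ℚ_[p]), c σ t = sact W σ (φ t) - φ t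

/-- The restriction of the cocycle `c` to the absolute Galois group of the field `K` (which is `ℚ_l`)
is in the Bloch–Kato subgroup `H¹_f(K, V_p(W))`, the image of the Kummer map: there is a homomorphism
`ψ` from `ℚ_p` to `W(K̄)` such that `c τ = τ ψ - ψ` for all `τ`.

(By Bloch and Kato, Example 3.11, `H¹_f(K, V_p(W))` is the image of the completion of `W(K)`,
tensored with `ℚ_p`. As `c` is continuous with values in `V_p(W)`, `ψ` maps `p ^ m ℤ_p` to `W(K)` for
some `m`, and then `c` is the image of `p ^ (-m) ⊗ ψ(p ^ m)`.) -/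
def LocF (K : Type) [Field K] [Algebra ℚ K] (c : Coch p W) : Prop :=
  ∀ ι : Emb K, ∃ ψ : Hm p (PtL W K), ∀ (τ : GalL K) (σ : Gal), IsRes ι τ σ → ∀ t : ℚ_[p],
    emb W ι (c σ t) = lact W τ (ψ t) - ψ t

/-- `c` is a continuous cocycle with values in `V_p(W)` whose restriction to every `ℚ_l` is in the
Bloch–Kato subgroup. -/
def IsSelV (c : Coch p W) : Prop := IsCocV c ∧ ∀ (l : ℕ) [Fact l.Prime], LocF ℚ_[l] c

lemma isSelV_zero : IsSelV (0 : Coch p W) := by
  refine ⟨⟨fun σ => isV_zero, fun t => IsLocallyConstant.const _, fun σ τ t => ?_⟩,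
    fun l _ ι => ⟨0, fun τ σ _ t => ?_⟩⟩
  · show (0 : PtQ W) = 0 + sact W σ 0
    rw [map_zero, add_zero]
  · show emb W ι 0 = lact W τ 0 - 0
    rw [map_zero, map_zero, sub_zero]

lemma IsSelV.add {c d : Coch p W} (hc : IsSelV c) (hd : IsSelV d) : IsSelV (c + d) := by
  obtain ⟨⟨a1, a2, a3⟩, a4⟩ := hc
  obtain ⟨⟨b1, b2, b3⟩, b4⟩ := hd
  refine ⟨⟨fun σ => (a1 σ).add (b1 σ), fun t => (a2 t).add (b2 t), fun σ τ t => ?_⟩,
    fun l _ ι => ?_⟩
  · show c (σ * τ) t + d (σ * τ) t = (c σ t + d σ t) + sact W σ (c τ t + d τ t)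
    rw [a3, b3, map_add]
    abel
  · obtain ⟨ψ, hψ⟩ := a4 l ι
    obtain ⟨χ, hχ⟩ := b4 l ι
    refine ⟨ψ + χ, fun τ σ h t => ?_⟩
    show emb W ι (c σ t + d σ t) = lact W τ (ψ t + χ t) - (ψ t + χ t)
    rw [map_add, map_add, hψ τ σ h, hχ τ σ h]
    abel

lemma IsSelV.smul {c : Coch p W} (hc : IsSelV c) (q : ℚ_[p]) : IsSelV (q • c) := by
  obtain ⟨⟨a1, a2, a3⟩, a4⟩ := hc
  refine ⟨⟨fun σ => (a1 σ).smul q, fun t => a2 (q * t), fun σ τ t => a3 σ τ (q * t)⟩,
    fun l _ ι => ?_⟩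
  obtain ⟨ψ, hψ⟩ := a4 l ι
  exact ⟨q • ψ, fun τ σ h t => hψ τ σ h (q * t)⟩

lemma isCobV_zero : IsCobV (0 : Coch p W) := ⟨0, isV_zero, fun σ t => by
  show (0 : PtQ W) = sact W σ 0 - 0
  rw [map_zero, sub_zero]⟩

lemma IsCobV.add {c d : Coch p W} (hc : IsCobV c) (hd : IsCobV d) : IsCobV (c + d) := by
  obtain ⟨φ, h1, h2⟩ := hc
  obtain ⟨χ, h3, h4⟩ := hd
  refine ⟨φ + χ, h1.add h3, fun σ t => ?_⟩
  show c σ t + d σ t = sact W σ (φ t + χ t) - (φ t + χ t)
  rw [h2, h4, map_add]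
  abel

lemma IsCobV.smul {c : Coch p W} (hc : IsCobV c) (q : ℚ_[p]) : IsCobV (q • c) := by
  obtain ⟨φ, h1, h2⟩ := hc
  exact ⟨q • φ, h1.smul q, fun σ t => h2 σ (q * t)⟩

variable (p W)

/-- The space of the continuous cocycles with values in `V_p(W)` whose restriction to every `ℚ_l` is
in the Bloch–Kato subgroup. -/
noncomputable def selV : Submodule ℚ_[p] (Coch p W) where
  carrier := {c | IsSelV c}
  zero_mem' := isSelV_zero
  add_mem' := IsSelV.add
  smul_mem' := fun q _ hc => IsSelV.smul hc q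

/-- The space of the coboundaries of the elements of `V_p(W)`. -/
noncomputable def cobV : Submodule ℚ_[p] (Coch p W) where
  carrier := {c | IsCobV c}
  zero_mem' := isCobV_zero
  add_mem' := IsCobV.add
  smul_mem' := fun q _ hc => IsCobV.smul hc q

/-- The space of the continuous cocycles that satisfy the local conditions. -/
def ZV : Type := selV p W

noncomputable instance : AddCommGroup (ZV p W) := (inferInstance : AddCommGroup (selV p W))

noncomputable instance : Module ℚ_[p] (ZV p W) := (inferInstance : Module ℚ_[p] (selV p W))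

/-- The coboundaries in it. -/
noncomputable def BV : Submodule ℚ_[p] (ZV p W) := (cobV p W).comap (selV p W).subtype

/-- **The Bloch–Kato Selmer group** `H¹_f(ℚ, V_p(W))`, a vector space over `ℚ_p`: the classes of the
continuous cocycles with values in `V_p(W)` whose restriction to every `ℚ_l` is in
`H¹_f(ℚ_l, V_p(W))`, modulo the coboundaries. -/
def H1f : Type := ZV p W ⧸ BV p W

noncomputable instance : AddCommGroup (H1f p W) := (inferInstance : AddCommGroup (ZV p W ⧸ BV p W))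

noncomputable instance : Module ℚ_[p] (H1f p W) :=
  (inferInstance : Module ℚ_[p] (ZV p W ⧸ BV p W))

/-- The dimension of `H¹_f(ℚ, V_p(W))` over `ℚ_p`. -/
noncomputable def dimH1f : ℕ := Module.finrank ℚ_[p] (H1f p W)

/-! ### The Abel–Jacobi map -/

variable {p W}

/-- `c` is a Kummer cocycle of the rational point `P`: there are algebraic points `Q 0 = P`,
`Q 1`, ... with `p Q (n + 1) = Q n` such that the class of `p ^ (-n) (c σ)` in
`V_p(W) / T_p(W) = W[p ^ ∞]` is `σ (Q n) - Q n`. -/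
def IsKummer (P : Pt W ℚ) (c : Coch p W) : Prop :=
  ∃ Q : ℕ → PtQ W, Q 0 = act W (Algebra.ofId ℚ QB) P ∧ (∀ n, p • Q (n + 1) = Q n) ∧
    ∀ (σ : Gal) (n : ℕ), c σ ((p : ℚ_[p]) ^ n)⁻¹ = sact W σ (Q n) - Q n

variable (p W)

/-- The Kummer classes of the rational points. -/
def kumClasses : Set (H1f p W) :=
  {x | ∃ (c : Coch p W) (h : IsSelV c) (P : Pt W ℚ), IsKummer P c ∧
    x = (BV p W).mkQ (⟨c, h⟩ : selV p W)}

/-- The image of the Abel–Jacobi map `W(ℚ) ⊗ ℚ_p → H¹_f(ℚ, V_p(W))`: the subspace spanned by the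
Kummer classes of the rational points. -/
noncomputable def ajImage : Submodule ℚ_[p] (H1f p W) := Submodule.span ℚ_[p] (kumClasses p W)

/-- The cokernel of the Abel–Jacobi map. -/
def AJCoker : Type := H1f p W ⧸ ajImage p W

noncomputable instance : AddCommGroup (AJCoker p W) :=
  (inferInstance : AddCommGroup (H1f p W ⧸ ajImage p W))

noncomputable instance : Module ℚ_[p] (AJCoker p W) :=
  (inferInstance : Module ℚ_[p] (H1f p W ⧸ ajImage p W))

/-- The dimension of the cokernel of the Abel–Jacobi map. -/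
noncomputable def codim : ℕ := Module.finrank ℚ_[p] (AJCoker p W)

end Run7.h318.BK
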